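import Mathlib
import Pool.Agent.KS6_17.BVS.Fam

/-!
# Dense Baire subspaces of `A^∞(G)` whose functions have derivatives of arbitrary growth

The definitions of `AInfty G`, its topology, `IsRegularDomain`, `NonExtendable`,
`HolomorphicExactlyOn` and `TaylorDiverges` are those of the library modules
`DenseBaireSubspace` and `IndependentBaireSubspaces`; `GrowsFaster G W f ζ` says: for every `C`, for
infinitely many `j`, the derivative `f^(j)` has a limit at `ζ` from inside of `G`, of absolute value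
larger than `C ^ j * W j`.
-/

set_option autoImplicit false

open Set Topology Filter TopologicalSpace

namespace Pool.Agent.Results.MP_2e37b9_an.ArbitraryGrowth

open Pool.Agent.H586R3 Pool.Agent.KS6_17.BVS
open Pool.Agent.Results.MP_2e37b9_an.DenseBaireSubspace
open Pool.Agent.Results.MP_2e37b9_an.IndependentBaireSubspaces

/-- Let `G` be a regular domain. There is a countable set `Q`, dense in the boundary of `G`, such
that the following is true for every sequence `W₀` of real numbers, however fast it grows, for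
every countable set `Z` of boundary points and every residual subset `R` of `A^∞(G)`. There are
vector subspaces `E t`, `t ∈ ℝ`, of `A^∞(G)`, whose sum is direct, each one spanned by elements of
`R`, such that every vector subspace which contains one of them (in particular each `E t`) is dense
in `A^∞(G)` and a Baire space in the induced topology, and such that for every non-zero element `f`
of the sum of all the `E t`:
`f` is not extendable, even holomorphic exactly on `G`; the Taylor series of `f` diverges at all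
points of `Z`; and at every point of `Q` the derivatives of `f` grow faster than `W₀`. -/
theorem result (G : Opens ℂ) (hG : IsRegularDomain G) :
    ∃ Q : Set ℂ, Q.Countable ∧ Q ⊆ frontier (G : Set ℂ) ∧ frontier (G : Set ℂ) ⊆ closure Q ∧
    ∀ (W₀ : ℕ → ℝ) (Z : Set ℂ), Z.Countable → Z ⊆ frontier (G : Set ℂ) →
    ∀ R : Set (AInfty G), R ∈ residual (AInfty G) →
    ∃ E : ℝ → Submodule ℂ (AInfty G), iSupIndep E ∧
      (∀ t, Submodule.span ℂ ((E t : Set (AInfty G)) ∩ R) = E t) ∧
      (∀ V : Submodule ℂ (AInfty G), (∃ t, E t ≤ V) → Dense (V : Set (AInfty G)) ∧ BaireSpace V) ∧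
      (∀ f ∈ ⨆ t, E t, f ≠ 0 → NonExtendable G f.fn ∧ HolomorphicExactlyOn G f.fn ∧
        (∀ ζ ∈ Z, TaylorDiverges G f.fn ζ) ∧ ∀ ζ ∈ Q, GrowsFaster G W₀ f.fn ζ) := by
  obtain ⟨Q, hQ1, hQ2, hQ3, hQ4⟩ := exists_nearest hG
  refine ⟨Q, hQ1, hQ2, hQ3, fun W₀ Z hZ hZG R hR => ?_⟩
  obtain ⟨s, hs, hsd⟩ := TopologicalSpace.exists_countable_dense ↥(frontier (G : Set ℂ))
  obtain ⟨W, hW1, hW2, hW3⟩ := exists_seen G
  set Z' : Set ℂ := Subtype.val '' s ∪ (W ∪ Z) with hZdef
  have hZ' : Z'.Countable := (hs.image _).union (hW1.union hZ)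
  have hZf : Z' ⊆ frontier (G : Set ℂ) := by
    rintro x (hx | hx | hx)
    · obtain ⟨y, _, rfl⟩ := hx
      exact y.2
    · exact hW2 hx
    · exact hZG hx
  have hZG' : Z' ⊆ closure (G : Set ℂ) := hZf.trans frontier_subset_closure
  have hZe : ∀ ζ ∈ Z', ∀ ε : ℝ, 0 < ε → ∃ b, b ∉ closure (G : Set ℂ) ∧ ‖ζ - b‖ < ε := by
    intro ζ hζ ε hε
    by_contra hcon
    push Not at hcon
    have h1 : Metric.ball ζ ε ⊆ closure (G : Set ℂ) := by
      intro b hb
      by_contra hb2
      have := hcon b hb2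
      rw [Metric.mem_ball, dist_comm, dist_eq_norm] at hb
      linarith
    have h2 : ζ ∈ interior (closure (G : Set ℂ)) :=
      mem_interior.2 ⟨Metric.ball ζ ε, h1, Metric.isOpen_ball, Metric.mem_ball_self hε⟩
    rw [← hG.2] at h2
    have h3 := hZf hζ
    rw [G.isOpen.frontier_eq] at h3
    exact h3.2 h2
  have hZd : ∀ U : Set ℂ, IsOpen U → (U ∩ frontier (G : Set ℂ)).Nonempty → (U ∩ Z').Nonempty := by
    rintro U hU ⟨x, hxU, hxf⟩
    obtain ⟨y, hys, hyU⟩ := hsd.exists_mem_open (hU.preimage continuous_subtype_val)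
      ⟨(⟨x, hxf⟩ : ↥(frontier (G : Set ℂ))), hxU⟩
    exact ⟨y.1, hyU, Or.inl ⟨y, hys, rfl⟩⟩
  have hBaire1 : BaireSpace (JetSp (G : Set ℂ)) := baire_JetSp G.isOpen
  have hBaire2 : BaireSpace (AInfty G) := (eH : JetSp (G : Set ℂ) ≃ₜ AInfty G).baireSpace
  have hQG' : Q ⊆ closure (G : Set ℂ) := hQ2.trans frontier_subset_closure
  obtain ⟨B, hB1, hB2, hB3, hB4, hB5⟩ := exists_jets_family_w G.isOpen hG.1.nonempty Z' hZ' hZG' hZe
    Q hQ1 hQG' hQ4 (wgt W₀) (wgt_mono W₀) (wgt_one W₀) (eH ⁻¹' R) (residual_preimage eH R hR)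
  set e : JetSp (G : Set ℂ) ≃ₗ[ℂ] AInfty G := eE with he
  have heH : ∀ x, (eH : JetSp (G : Set ℂ) ≃ₜ AInfty G) x = e x := fun _ => rfl
  refine ⟨fun t => (Submodule.span ℂ (B t)).map e.toLinearMap, ?_, ?_, ?_, ?_⟩
  · have h1 := (iSupIndep_map_orderIso_iff (Submodule.orderIsoMapComap e) (a := fun t => Submodule.span ℂ (B t))).2 hB2
    exact h1
  · intro t
    apply le_antisymm
    · rw [Submodule.span_le]
      exact inter_subset_left
    · show (Submodule.span ℂ (B t)).map e.toLinearMap ≤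
        Submodule.span ℂ (((Submodule.span ℂ (B t)).map e.toLinearMap : Set (AInfty G)) ∩ R)
      rw [Submodule.map_span]
      apply Submodule.span_mono
      rintro _ ⟨x, hx, rfl⟩
      exact ⟨Submodule.subset_span ⟨x, hx, rfl⟩, hB1 t hx⟩
  · rintro V ⟨t, ht⟩
    obtain ⟨h1, h2⟩ := hB3 (V.comap e.toLinearMap) ⟨t, fun x hx => ht ⟨x, Submodule.subset_span hx, rfl⟩⟩
    have hV : (eH '' ((V.comap e.toLinearMap : Submodule ℂ (JetSp (G : Set ℂ))) : Set (JetSp (G : Set ℂ)))) = (V : Set (AInfty G)) := by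
      ext y
      constructor
      · rintro ⟨x, hx, rfl⟩
        exact hx
      · intro hy
        refine ⟨e.symm y, ?_, ?_⟩
        · show e (e.symm y) ∈ V
          rw [e.apply_symm_apply]
          exact hy
        · rw [heH, e.apply_symm_apply]
    constructor
    · have h3 : Dense (eH '' ((V.comap e.toLinearMap : Submodule ℂ (JetSp (G : Set ℂ))) : Set (JetSp (G : Set ℂ)))) :=
        eH.surjective.denseRange.dense_image eH.continuous h1
      rwa [hV] at h3
    · have h3 := eH.image ((V.comap e.toLinearMap : Submodule ℂ (JetSp (G : Set ℂ))) : Set (JetSp (G : Set ℂ)))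
      have h4 : BaireSpace (eH '' ((V.comap e.toLinearMap : Submodule ℂ (JetSp (G : Set ℂ))) : Set (JetSp (G : Set ℂ)))) := by
        have h5 : BaireSpace ((V.comap e.toLinearMap : Submodule ℂ (JetSp (G : Set ℂ))) : Set (JetSp (G : Set ℂ))) := h2
        exact h3.baireSpace
      rw [hV] at h4
      exact h4
  · intro f hf hf0
    have h1 : f ∈ (Submodule.span ℂ (⋃ t, B t)).map e.toLinearMap := by
      rw [← Submodule.map_iSup, ← Submodule.span_iUnion] at hf
      exact hf
    obtain ⟨g, hg, rfl⟩ := h1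
    have hg0 : g ≠ 0 := by
      rintro rfl
      exact hf0 (map_zero _)
    have hfn : (e.toLinearMap g).fn = fnOf g := eE_fn g
    rw [hfn]
    have hfd : DifferentiableOn ℂ (fnOf g) G := (Subtype.property (e.toLinearMap g)).2.1
    refine ⟨?_, ⟨hfd, ?_⟩, ?_, ?_⟩
    · by_contra hcon
      obtain ⟨ζ, hζ, hmem⟩ := extendable_aux hZG' hG.1.nonempty hZd g hcon
      exact hB4 g hg hg0 ζ hζ hmem
    · rintro a ha r hr ⟨F, hF, hFa⟩
      obtain ⟨C, U, ζ, hζW, hCo, hCc, haC, hCG, hUo, hUr, hCU, hζU, hζC⟩ := hW3 a ha r hr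
      have h1 : AnalyticOnNhd ℂ F C := ((hF.mono (hCU.trans hUr)).analyticOnNhd hCo)
      have h2 : AnalyticOnNhd ℂ (fnOf g) C := ((hfd.mono hCG).analyticOnNhd hCo)
      have h3 : EqOn F (fnOf g) C := h1.eqOn_of_preconnected_of_eventuallyEq h2 hCc haC hFa
      have hζZ : ζ ∈ Z' := Or.inr (Or.inl hζW)
      exact hB4 g hg hg0 ζ hζZ (mem_Yc_of g (hZG' hζZ) hUo hζU hCo hCG hζC (hF.mono hUr) h3)
    · intro ζ hζ
      exact taylor_of (hZG' (Or.inr (Or.inr hζ))) g (hB4 g hg hg0 ζ (Or.inr (Or.inr hζ)))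
    · intro ζ hζ
      exact grows_of (hQG' hζ) W₀ g (hB5 g hg hg0 ζ hζ)

end Pool.Agent.Results.MP_2e37b9_an.ArbitraryGrowth
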